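import Mathlib

set_option autoImplicit false

namespace Pool.Agent.Results.MP_9038fc_co.NotAllRealised

/-- `T` is a tournament on the vertex set `Fin n`: `T u v` means that the arc `u → v` is present,
there are no loops, and for distinct `u, v` exactly one of `u → v`, `v → u` is present. -/
def IsTournament {n : ℕ} (T : Fin n → Fin n → Prop) : Prop :=
  (∀ v, ¬ T v v) ∧ ∀ u v, u ≠ v → (T u v ↔ ¬ T v u)

/-- The arc set of the closed walk `w 0 → w 1 → ⋯ → w (n-1) → w 0`
(`finRotate n` is the cyclic shift `i ↦ i + 1` of `Fin n`). -/
def arcs {n : ℕ} (w : Equiv.Perm (Fin n)) : Set (Fin n × Fin n) :=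
  Set.range (fun i => (w i, w (finRotate n i)))

/-- `A` is (the arc set of) a Hamiltonian circuit of `T`. -/
def IsHamCircuit {n : ℕ} (T : Fin n → Fin n → Prop) (A : Set (Fin n × Fin n)) : Prop :=
  ∃ w : Equiv.Perm (Fin n), (∀ i, T (w i) (w (finRotate n i))) ∧ A = arcs w

/-- The number of distinct Hamiltonian circuits of `T`. -/
noncomputable def numHam {n : ℕ} (T : Fin n → Fin n → Prop) : ℕ :=
  Set.ncard {A | IsHamCircuit T A}

/-- Some `n`-tournament has exactly `h` distinct Hamiltonian circuits. -/
def Realised (n h : ℕ) : Prop :=
  ∃ T : Fin n → Fin n → Prop, IsTournament T ∧ numHam T = h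

/-- `M = h_o(n)`: the largest number of Hamiltonian circuits of an `n`-tournament. -/
def IsMax (n M : ℕ) : Prop := IsGreatest {h | Realised n h} M

/-! ### Lists of permutations -/

/-- The 720 orderings of `1, ..., 6`. -/
def perms : List (List (Fin 7)) := List.permutations' [1, 2, 3, 4, 5, 6]

lemma nodup_perms : perms.Nodup := by
  have h := List.nodup_permutations ([1, 2, 3, 4, 5, 6] : List (Fin 7)) (by decide)
  rwa [(List.permutations_perm_permutations' _).nodup_iff] at h

/-- The arcs of the circuit `0 → a → b → c → d → e → f → 0`. -/
def arcsL : List (Fin 7) → List (Fin 7 × Fin 7)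
  | [a, b, c, d, e, f] => [(0, a), (a, b), (b, c), (c, d), (d, e), (e, f), (f, 0)]
  | _ => []

/-- Validity of a circuit given by a list. -/
def validB (T : Fin 7 → Fin 7 → Prop) [DecidableRel T] (l : List (Fin 7)) : Bool :=
  (arcsL l).all (fun p => decide (T p.1 p.2))

/-- Circuits starting at `0`. -/
def S (T : Fin 7 → Fin 7 → Prop) : Set (Equiv.Perm (Fin 7)) :=
  {w | w 0 = 0 ∧ ∀ i, T (w i) (w (finRotate 7 i))}

lemma rot (i : Fin 7) : finRotate 7 i = i + 1 := by
  revert i; decide

lemma numHam_eq_S (T : Fin 7 → Fin 7 → Prop) : numHam T = (S T).ncard := by
  have h1 : {A | IsHamCircuit T A} = arcs '' S T := by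
    ext A
    constructor
    · rintro ⟨w, hw, rfl⟩
      let j : Fin 7 := w.symm 0
      refine ⟨(Equiv.addRight j).trans w, ⟨?_, ?_⟩, ?_⟩
      · simp [j]
      · intro i
        have := hw (i + j)
        rw [rot] at this ⊢
        simpa [add_right_comm] using this
      · ext p
        simp only [arcs, Set.mem_range, rot]
        constructor
        · rintro ⟨i, rfl⟩
          exact ⟨i + j, by simp [add_right_comm]⟩
        · rintro ⟨i, rfl⟩
          exact ⟨i - j, by simp; abel⟩
    · rintro ⟨w, hw, rfl⟩
      exact ⟨w, hw.2, rfl⟩
  have h2 : Set.InjOn arcs (S T) := by
    intro w hw w' hw' h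
    have key : ∀ k : ℕ, w (Fin.ofNat 7 k) = w' (Fin.ofNat 7 k) := by
      intro k
      induction k with
      | zero =>
        have : (Fin.ofNat 7 0) = 0 := rfl
        rw [this, hw.1, hw'.1]
      | succ k ih =>
        have e : (Fin.ofNat 7 (k + 1)) = finRotate 7 (Fin.ofNat 7 k) := by
          rw [rot]
          apply Fin.ext
          simp [Fin.val_add]
        have hm : (w (Fin.ofNat 7 k), w (finRotate 7 (Fin.ofNat 7 k))) ∈ arcs w := ⟨_, rfl⟩
        rw [h] at hm
        obtain ⟨j, hj⟩ := hm
        simp only [Prod.mk.injEq] at hj
        have hj1 : j = Fin.ofNat 7 k := w'.injective (hj.1.trans ih)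
        rw [e, ← hj.2, hj1]
    apply Equiv.ext
    intro i
    have := key i.val
    have e : Fin.ofNat 7 i.val = i := by
      apply Fin.ext
      simp [Nat.mod_eq_of_lt i.isLt]
    rwa [e] at this
  rw [numHam, h1, Set.ncard_image_of_injOn h2]

/-- The list of a permutation. -/
def toL (w : Equiv.Perm (Fin 7)) : List (Fin 7) := [w 1, w 2, w 3, w 4, w 5, w 6]

lemma ncard_S (T : Fin 7 → Fin 7 → Prop) [DecidableRel T] :
    (S T).ncard = (perms.filter (validB T)).length := by
  have h2 : Set.InjOn toL (S T) := by
    intro w hw w' hw' h
    simp only [toL, List.cons.injEq, and_true] at h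
    obtain ⟨h1, h2, h3, h4, h5, h6⟩ := h
    apply Equiv.ext
    intro i
    fin_cases i
    · exact hw.1.trans hw'.1.symm
    · exact h1
    · exact h2
    · exact h3
    · exact h4
    · exact h5
    · exact h6
  have h1 : toL '' S T = {l | l ∈ perms.filter (validB T)} := by
    ext l
    constructor
    · rintro ⟨w, ⟨hw0, hw⟩, rfl⟩
      simp only [Set.mem_setOf_eq, List.mem_filter]
      constructor
      · rw [perms, List.mem_permutations']
        have hne : ∀ i, i ≠ 0 → w i ≠ 0 := by
          intro i hi h
          apply hi
          apply w.injective
          rw [h, hw0]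
        refine (List.perm_ext_iff_of_nodup ?_ (by decide)).2 ?_
        · simp only [toL, List.nodup_cons, List.mem_cons, EmbeddingLike.apply_eq_iff_eq,
            List.not_mem_nil, or_false, not_false_eq_true, List.nodup_nil, and_true]
          decide
        · intro a
          have e1 : a ∈ ([1, 2, 3, 4, 5, 6] : List (Fin 7)) ↔ a ≠ 0 := by
            revert a; decide
          rw [e1]
          constructor
          · intro ha
            simp only [toL, List.mem_cons, List.not_mem_nil, or_false] at ha
            rcases ha with h | h | h | h | h | h <;> rw [h] <;> exact hne _ (by decide)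
          · intro ha
            have hi : w.symm a ≠ 0 := by
              intro h
              apply ha
              rw [← hw0, ← h, Equiv.apply_symm_apply]
            have e2 : a = w (w.symm a) := by simp
            rw [e2]
            generalize w.symm a = i at hi
            simp only [toL, List.mem_cons, EmbeddingLike.apply_eq_iff_eq, List.not_mem_nil,
              or_false]
            revert i
            decide
      · simp only [validB, toL, arcsL, List.all_cons, List.all_nil, Bool.and_true,
          Bool.and_eq_true, decide_eq_true_eq]
        have g0 := hw 0
        have g1 := hw 1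
        have g2 := hw 2
        have g3 := hw 3
        have g4 := hw 4
        have g5 := hw 5
        have g6 := hw 6
        rw [rot] at g0 g1 g2 g3 g4 g5 g6
        rw [hw0] at g0
        have e6 : (6 : Fin 7) + 1 = 0 := by decide
        rw [e6, hw0] at g6
        exact ⟨g0, g1, g2, g3, g4, g5, g6⟩
    · intro hl
      simp only [Set.mem_setOf_eq, List.mem_filter] at hl
      obtain ⟨hl1, hl2⟩ := hl
      rw [perms, List.mem_permutations'] at hl1
      have hlen : l.length = 6 := hl1.length_eq
      match l, hlen with
      | [a, b, c, d, e, f], _ =>
        have hnd : ([0, a, b, c, d, e, f] : List (Fin 7)).Nodup := by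
          have := (List.Perm.cons 0 hl1).nodup_iff.2 (by decide)
          exact this
        have hinj : Function.Injective ![0, a, b, c, d, e, f] := by
          rw [← List.nodup_ofFn]
          simpa using hnd
        let w : Equiv.Perm (Fin 7) := Equiv.ofBijective _ (Finite.injective_iff_bijective.1 hinj)
        refine ⟨w, ⟨rfl, ?_⟩, rfl⟩
        simp only [validB, arcsL, List.all_cons, List.all_nil, Bool.and_true,
          Bool.and_eq_true, decide_eq_true_eq] at hl2
        obtain ⟨g0, g1, g2, g3, g4, g5, g6⟩ := hl2
        intro i
        fin_cases i
        · exact g0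
        · exact g1
        · exact g2
        · exact g3
        · exact g4
        · exact g5
        · exact g6
  rw [← Set.ncard_image_of_injOn h2, h1]
  have : {l | l ∈ perms.filter (validB T)} = ((perms.filter (validB T)).toFinset : Set _) := by
    ext l; simp
  rw [this, Set.ncard_coe_finset, List.toFinset_card_of_nodup (nodup_perms.filter _)]

/-! ### Relabelling -/

lemma numHam_relabel (T : Fin 7 → Fin 7 → Prop) (σ : Equiv.Perm (Fin 7)) :
    numHam (fun i j => T (σ i) (σ j)) = numHam T := by
  rw [numHam, numHam]
  have hinj : Function.Injective (fun A : Set (Fin 7 × Fin 7) => Prod.map σ σ '' A) :=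
    Set.image_injective.2 (Prod.map_injective.2 ⟨σ.injective, σ.injective⟩)
  rw [← Set.ncard_image_of_injective _ hinj]
  congr 1
  ext A
  constructor
  · rintro ⟨B, ⟨w, hw, rfl⟩, rfl⟩
    refine ⟨w.trans σ, hw, ?_⟩
    simp only [arcs, ← Set.range_comp]
    rfl
  · rintro ⟨w, hw, rfl⟩
    refine ⟨arcs (w.trans σ.symm), ⟨w.trans σ.symm, ?_, rfl⟩, ?_⟩
    · intro i
      simpa using hw i
    · simp only [arcs, ← Set.range_comp]
      congr 1
      funext i
      simp

lemma exists_relabel (T : Fin 7 → Fin 7 → Prop) (hT : IsTournament T) :
    ∃ σ : Equiv.Perm (Fin 7), ∃ k : ℕ, k ≤ 6 ∧ σ 0 = 0 ∧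
      ∀ j, T 0 (σ j) ↔ (1 ≤ j.val ∧ j.val ≤ k) := by
  classical
  let k := Fintype.card {j // T 0 j}
  have hk : k ≤ 6 := by
    have h1 : Fintype.card {j // T 0 j} < Fintype.card (Fin 7) :=
      Fintype.card_subtype_lt (x := (0 : Fin 7)) (hT.1 0)
    simp only [Fintype.card_fin] at h1
    show Fintype.card {j // T 0 j} ≤ 6
    omega
  have hcard : Fintype.card {j : Fin 7 // 1 ≤ j.val ∧ j.val ≤ k} = k := by
    have : ∀ k : ℕ, k < 7 → Fintype.card {j : Fin 7 // 1 ≤ j.val ∧ j.val ≤ k} = k := by
      intro k hk
      interval_cases k <;> rfl
    exact this k (by omega)
  let e : {j : Fin 7 // 1 ≤ j.val ∧ j.val ≤ k} ≃ {j // T 0 j} := Fintype.equivOfCardEq hcard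
  let τ := e.extendSubtype
  have h1 : ∀ j, T 0 (τ j) ↔ (1 ≤ j.val ∧ j.val ≤ k) := by
    intro j
    constructor
    · intro h
      by_contra hcon
      exact e.extendSubtype_not_mem j hcon h
    · intro h
      exact e.extendSubtype_mem j h
  have hτ0 : ¬ T 0 (τ 0) := by
    rw [h1]
    simp
  refine ⟨τ.trans (Equiv.swap (τ 0) 0), k, hk, by simp, ?_⟩
  intro j
  rw [← h1]
  simp only [Equiv.trans_apply]
  by_cases ha : τ j = τ 0
  · rw [ha, Equiv.swap_apply_left]
    exact ⟨fun h => absurd h (hT.1 0), fun h => absurd h hτ0⟩
  · by_cases hb : τ j = 0
    · rw [hb, Equiv.swap_apply_right]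
      exact ⟨fun h => absurd h hτ0, fun h => absurd h (hT.1 0)⟩
    · rw [Equiv.swap_apply_of_ne_of_ne ha hb]

/-! ### Masks and the search -/

/-- Code of an arc. -/
def code (p : Fin 7 × Fin 7) : ℕ := 7 * p.1.val + p.2.val

lemma code_inj (p q : Fin 7 × Fin 7) (h : code p = code q) : p = q := by
  unfold code at h
  have h1 := p.2.isLt
  have h2 := q.2.isLt
  apply Prod.ext
  · apply Fin.ext; omega
  · apply Fin.ext; omega

/-- The mask of a list of arcs. -/
def maskL (A : List (Fin 7 × Fin 7)) : ℕ := A.foldr (fun p acc => 2 ^ (code p) ||| acc) 0

lemma testBit_maskL (A : List (Fin 7 × Fin 7)) (p : Fin 7 × Fin 7) :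
    (maskL A).testBit (code p) = true ↔ p ∈ A := by
  induction A with
  | nil => simp [maskL]
  | cons q A ih =>
    show (2 ^ (code q) ||| maskL A).testBit (code p) = true ↔ _
    rw [Nat.testBit_or, Bool.or_eq_true, ih, Nat.testBit_two_pow, List.mem_cons]
    constructor
    · rintro (h | h)
      · left
        exact (code_inj _ _ (by simpa using h)).symm
      · right; exact h
    · rintro (h | h)
      · left; simp [h]
      · right; exact h

/-- The pairs `i < j` among `1, ..., 6`. -/
def pairs : List (Fin 7 × Fin 7) := [(1, 2), (1, 3), (2, 3), (1, 4), (2, 4), (3, 4), (1, 5), (2, 5), (3, 5), (4, 5), (1, 6), (2, 6), (3, 6), (4, 6), (5, 6)]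

/-- The codes of the two orientations of the pairs. -/
def ords : List (ℕ × ℕ) := [(9, 15), (10, 22), (17, 23), (11, 29), (18, 30), (25, 31), (12, 36), (19, 37), (26, 38), (33, 39), (13, 43), (20, 44), (27, 45), (34, 46), (41, 47)]

lemma ords_eq : ords = pairs.map (fun p => (code p, code p.swap)) := by decide +kernel

/-- The pruned search for 23. -/
def search : List (ℕ × ℕ) → List ℕ → Bool
  | [], L => !(Nat.beq L.length 23)
  | (x, y) :: o, L =>
    Nat.blt L.length 23 ||
      (search o (L.filter (fun m => !(m.testBit y))) &&
        search o (L.filter (fun m => !(m.testBit x))))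

/-- The test of a mask against a choice of orientations. -/
def ok (t : ℕ × ℕ → Bool) (o : List (ℕ × ℕ)) (m : ℕ) : Bool :=
  o.all (fun p => !(m.testBit (if t p then p.2 else p.1)))

lemma search_spec (t : ℕ × ℕ → Bool) (o : List (ℕ × ℕ)) : ∀ L : List ℕ, search o L = true →
    (L.filter (ok t o)).length ≠ 23 := by
  induction o with
  | nil =>
    intro L h h2
    have : L.filter (ok t []) = L := by
      apply List.filter_eq_self.2
      intro m _
      rfl
    rw [this] at h2
    rw [search, h2] at h
    exact absurd h (by decide)
  | cons p o ih =>
    obtain ⟨x, y⟩ := p
    intro L h h2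
    rw [search, Bool.or_eq_true, Bool.and_eq_true] at h
    rcases h with h | ⟨h3, h4⟩
    · have h5 : L.length < 23 := by
        rw [Nat.blt_eq] at h
        exact h
      have h6 := List.length_filter_le (ok t ((x, y) :: o)) L
      omega
    · by_cases ht : t (x, y) = true
      · have h5 := ih _ h3
        rw [List.filter_filter] at h5
        apply h5
        rw [← h2]
        congr 1
        apply List.filter_congr
        intro m _
        simp [ok, ht, Bool.and_comm]
      · have h5 := ih _ h4
        rw [List.filter_filter] at h5
        apply h5
        rw [← h2]
        congr 1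
        apply List.filter_congr
        intro m _
        simp [ok, ht, Bool.and_comm]

/-- First and last vertex condition. -/
def ends (k : ℕ) (l : List (Fin 7)) : Bool :=
  (arcsL l).all (fun p => (p.1 != 0 || (Nat.ble 1 p.2.val && Nat.ble p.2.val k)) &&
    (p.2 != 0 || !(Nat.ble 1 p.1.val && Nat.ble p.1.val k)))

/-- Mask lists. -/
def Lst : ℕ → List ℕ
  | 1 => [6605693387266, 6605668353026, 6598177588226, 4544110003202, 19799832806402, 6599284621826, 6598210750466, 6599226165250, 4537701107714, 19793423910914, 4681648833026, 4674132903938, 4544209750018, 4681523791874, 17875788122114, 37391987638786, 37384471709698, 35330404124674, 19799801464834, 37391993686018, 4965049434626, 4964991108098, 4552732705794, 4948944225282, 18159188853762, 4690138366466, 4552699023362, 4690112942082, 4674032766978, 17884277395458, 4950084551170, 4537767432194, 4949010419714, 4949959249922, 18144223580162, 35751310393858, 35338993274882, 35735204794370, 18159123959810, 35751316180994, 72568103109122, 72568044782594, 70506519725058, 19791545107458, 72568908301314, 70644025262594, 70506585919490, 70643899961346, 17867466870786, 70644830064642, 37383697859074, 35322114084866,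 19791511425026, 37383672434690, 37384502661122, 72569917538818, 70508333764610, 19793359147010, 72568843407362, 72569923325954, 140789061648898, 140789036614658, 140772956439554, 17643759731714, 140892140749826, 140774130057730, 140773056186370, 140774005016578, 17628828010498, 140877209028610, 35235979067906, 35219873728514, 17643792893954, 35235920611330, 35339058038786, 141029548491266, 141013443151874, 17884246444034, 140892109408258, 141029554538498, 70411828199938, 70411703288834, 17635270198274, 70404312400898, 70514907300866, 35227356365314, 17635169411074, 35227330420738, 35219839655938, 35330434555906, 70405319557634, 17628760645634, 70404244905986, 70405260320770, 70508397748226, 70652215165442, 17875656253442, 70644698456066, 70514775302146, 70652220432386, 141287646953986, 141287522042882, 18142345036802, 140875330225154, 141288452146178, 35734464496130, 18142277541890, 35734405259266, 35322146856962, 35735268777986, 141012669301250, 17867366473730, 140875229437954, 141012643356674, 141013473583106, 141289394799106, 18144091971586, 140877077159938, 141288320147458, 141289400066050]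
  | 2 => [6605693387266, 6605693289476, 6605664028676, 6597640327172, 4475389616132, 6605668353026, 6598177588226, 4544110003202, 6599284621826, 6599284393988, 6597674009604, 6599221710852, 4468980850692, 6598210750466, 6599226165250, 4537701107714, 4681648833026, 4681648605188, 4673595772932, 4475490403332, 4681518817284, 4674132903938, 4544209750018, 4681523791874, 37391987638786, 37391987410948, 37383934578692, 35261683867652, 11003708572676, 37384471709698, 35330404124674, 19799801464834, 4965049434626, 4965049336836, 4964986523652, 4484013099012, 4948406444036, 4964991108098, 4552732705794, 4948944225282, 4690138366466, 4690137878532, 4483979936772, 4690109007876, 4673495375876, 4552699023362, 4690112942082, 4674032766978, 4950084551170, 4950084063236, 4469048215556, 4948473938948, 4949954535428, 4537767432194, 4949010419714, 4949959249922, 35751310393858, 35751309905924, 35270274058244, 35734667403268, 9363031327748, 35338993274882, 35735204794370, 18159123959810, 72568103109122, 72568103011332, 72568040198148, 70437799337988, 10995451955204, 72568044782594, 70506519725058, 19791545107458, 70644025262594, 70644024774660, 70437866832900, 70643895246852,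 9071374108676, 70506585919490, 70643899961346, 17867466870786, 37383697859074, 37383697371140, 35253394087940, 10995418792964, 37383668500484, 35322114084866, 19791511425026, 37383672434690, 72569917538818, 72569917050884, 70439613767684, 10997266384900, 72568306926596, 70508333764610, 19793359147010, 72568843407362, 140789061648898, 140789061551108, 140789032290308, 140772418658308, 8847666319364, 140789036614658, 140772956439554, 17643759731714, 140774130057730, 140774129829892, 140772519445508, 140774000041988, 8832734728196, 140773056186370, 140774005016578, 17628828010498, 35235979067906, 35235978840068, 35219336077316, 8847700001796, 35235916156932, 35219873728514, 17643792893954, 35235920611330, 141029548491266, 141029548263428, 141012905500676, 9088153161732, 140823390061572, 141013443151874, 17884246444034, 140892109408258, 70411828199938, 70411828102148, 70411698184196, 8839177046020, 70403775139844, 70411703288834, 17635270198274, 70404312400898, 35227356365314, 35227355357188, 8839077299204, 35227327006724, 35219303305220, 17635169411074, 35227330420738, 35219839655938, 70405319557634, 70405318549508, 8832668403716, 70403708945412, 70405256646660,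 17628760645634, 70404244905986, 70405260320770, 70652215165442, 70652214157316, 9079564011524, 70644162105348, 70446056735748, 17875656253442, 70644698456066, 70514775302146, 141287646953986, 141287646856196, 141287516938244, 9346251624452, 140806610618372, 141287522042882, 18142345036802, 140875330225154, 35734464496130, 35734463488004, 9346185430020, 35734401585156, 35253428160516, 18142277541890, 35734405259266, 35322146856962, 141012669301250, 141012668293124, 9071273971716, 140806510871556, 141012639942660, 17867366473730, 140875229437954, 141012643356674, 141289394799106, 141289393790980, 9347999469572, 140808358463492, 141287784186884, 18144091971586, 140877077159938, 141288320147458]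
  | 3 => [6605693387266, 6605693289476, 6605664028676, 6597640327172, 4475389616132, 6605668353026, 6605664158216, 6605668124680, 6597615292424, 4475364581384, 6598177588226, 6598148229128, 6597640716808, 6598177099784, 4467873816584, 4544110003202, 4544080644104, 4536056942600, 4475390525960, 4544108994568, 6599284621826, 6599284393988, 6597674009604, 6599221710852, 4468980850692, 6598210750466, 6599226165250, 4537701107714, 4681648833026, 4681648605188, 4673595772932, 4475490403332, 4681518817284, 4674132903938, 4544209750018, 4681523791874, 4965049434626, 4965049336836, 4964986523652, 4484013099012, 4948406444036, 4964991108098, 4964986913288, 4964990619656, 4483954771976, 4948348117000, 4552732705794, 4552669794312, 4484013228552, 4552732477448, 4536089714696, 4948944225282, 4948881313800, 4467907889160, 4948407353864, 4948943216648, 4690138366466, 4690137878532, 4483979936772, 4690109007876, 4673495375876, 4552699023362, 4690112942082, 4674032766978, 4950084551170, 4950084063236, 4469048215556, 4948473938948, 4949954535428, 4537767432194, 4949010419714, 4949959249922, 72568103109122, 72568103011332, 72568040198148, 70437799337988, 10995451955204,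 72568044782594, 72568040587784, 72568044294152, 70437741010952, 10995393628168, 70506519725058, 70506456813576, 70437800247816, 70506518716424, 8933868570632, 19791545107458, 19791482195976, 17661241335816, 10995452084744, 19791544879112, 70644025262594, 70644024774660, 70437866832900, 70643895246852, 9071374108676, 70506585919490, 70643899961346, 17867466870786, 37383697859074, 37383697371140, 35253394087940, 10995418792964, 37383668500484, 35322114084866, 19791511425026, 37383672434690, 140789061648898, 140789061551108, 140789032290308, 140772418658308, 8847666319364, 140789036614658, 140789032419848, 140789036386312, 140772393623560, 8847641284616, 140772956439554, 140772927080456, 140772419568136, 140772955430920, 8831561109512, 17643759731714, 17643730372616, 17627116740616, 8847666709000, 17643759243272, 140774130057730, 140774129829892, 140772519445508, 140774000041988, 8832734728196, 140773056186370, 140774005016578, 17628828010498, 35235979067906, 35235978840068, 35219336077316, 8847700001796, 35235916156932, 35219873728514, 17643792893954, 35235920611330, 70411828199938, 70411828102148, 70411698184196, 8839177046020, 70403775139844, 70411703288834,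 70411699094024, 70411702280200, 8839052134408, 70403650228232, 17635270198274, 17635140182024, 8839177175560, 17635269969928, 17627217137672, 70404312400898, 70404182384648, 8831661246472, 70403775529480, 70404311912456, 35227356365314, 35227355357188, 8839077299204, 35227327006724, 35219303305220, 17635169411074, 35227330420738, 35219839655938, 70405319557634, 70405318549508, 8832668403716, 70403708945412, 70405256646660, 17628760645634, 70404244905986, 70405260320770, 141287646953986, 141287646856196, 141287516938244, 9346251624452, 140806610618372, 141287522042882, 141287517848072, 141287521034248, 9346126712840, 140806485706760, 18142345036802, 18142215020552, 9346252014088, 18142344548360, 17661308700680, 140875330225154, 140875200208904, 8933934895112, 140806610747912, 140875329996808, 35734464496130, 35734463488004, 9346185430020, 35734401585156, 35253428160516, 18142277541890, 35734405259266, 35322146856962, 141012669301250, 141012668293124, 9071273971716, 140806510871556, 141012639942660, 17867366473730, 140875229437954, 141012643356674]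
  | 4 => [6605693387266, 6605693289476, 6605664028676, 6597640327172, 4475389616132, 6605668353026, 6605664158216, 6605668124680, 6597615292424, 4475364581384, 6598177588226, 6598148229128, 6597640716808, 6598177099784, 4467873816584, 4544110003202, 4544080644104, 4536056942600, 4475390525960, 4544108994568, 6599284621826, 6599284393988, 6597674009604, 6599221710852, 4468980850692, 6598210750466, 6597673878032, 6598210651152, 6598147837968, 4467906977808, 6599226165250, 6597615551504, 6599221969424, 6599225675792, 4468922392592, 4537701107714, 4536090493968, 4537638195216, 4468981629456, 4537700098064, 4681648833026, 4681648605188, 4673595772932, 4475490403332, 4681518817284, 4674132903938, 4673596031504, 4674132414480, 4467974472720, 4674002886672, 4544209750018, 4536156688400, 4475490271760, 4544209650704, 4544079732752, 4681523791874, 4673470730256, 4475365360656, 4681519596048, 4681522782224, 4965049434626, 4965049336836, 4964986523652, 4484013099012, 4948406444036, 4964991108098, 4964986913288, 4964990619656, 4483954771976, 4948348117000, 4552732705794, 4552669794312, 4484013228552, 4552732477448, 4536089714696, 4948944225282, 4948881313800, 4467907889160,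 4948407353864, 4948943216648, 4690138366466, 4690137878532, 4483979936772, 4690109007876, 4673495375876, 4552699023362, 4690112942082, 4674032766978, 4950084551170, 4950084063236, 4469048215556, 4948473938948, 4949954535428, 4537767432194, 4949010419714, 4949959249922, 140789061648898, 140789061551108, 140789032290308, 140772418658308, 8847666319364, 140789036614658, 140789032419848, 140789036386312, 140772393623560, 8847641284616, 140772956439554, 140772927080456, 140772419568136, 140772955430920, 8831561109512, 17643759731714, 17643730372616, 17627116740616, 8847666709000, 17643759243272, 140774130057730, 140774129829892, 140772519445508, 140774000041988, 8832734728196, 140773056186370, 140772519313936, 140773056087056, 140772926169104, 8831660855312, 140774005016578, 140772394402832, 140774000820752, 140774004006928, 8832609685520, 17628828010498, 17627217396752, 17628697993232, 8832734986768, 17628827521040, 35235979067906, 35235978840068, 35219336077316, 8847700001796, 35235916156932, 35219873728514, 35219336856080, 35219872718864, 8831594660880, 35219810816016, 17643792893954, 17627149901840, 8847699870224, 17643792794640, 17643729981456, 35235920611330,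 35219277619216, 8847641543696, 35235916415504, 35235920121872, 70411828199938, 70411828102148, 70411698184196, 8839177046020, 70403775139844, 70411703288834, 70411699094024, 70411702280200, 8839052134408, 70403650228232, 17635270198274, 17635140182024, 8839177175560, 17635269969928, 17627217137672, 70404312400898, 70404182384648, 8831661246472, 70403775529480, 70404311912456, 35227356365314, 35227355357188, 8839077299204, 35227327006724, 35219303305220, 17635169411074, 35227330420738, 35219839655938, 70405319557634, 70405318549508, 8832668403716, 70403708945412, 70405256646660, 17628760645634, 70404244905986, 70405260320770]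
  | 5 => [6605693387266, 6605693289476, 6605664028676, 6597640327172, 4475389616132, 6605668353026, 6605664158216, 6605668124680, 6597615292424, 4475364581384, 6598177588226, 6598148229128, 6597640716808, 6598177099784, 4467873816584, 4544110003202, 4544080644104, 4536056942600, 4475390525960, 4544108994568, 6599284621826, 6599284393988, 6597674009604, 6599221710852, 4468980850692, 6598210750466, 6597673878032, 6598210651152, 6598147837968, 4467906977808, 6599226165250, 6597615551504, 6599221969424, 6599225675792, 4468922392592, 4537701107714, 4536090493968, 4537638195216, 4468981629456, 4537700098064, 4681648833026, 4681648605188, 4673595772932, 4475490403332, 4681518817284, 4674132903938, 4673596031504, 4674132414480, 4467974472720, 4674002886672, 4544209750018, 4536156688400, 4475490271760, 4544209650704, 4544079732752, 4681523791874, 4673470730256, 4475365360656, 4681519596048, 4681522782224, 4965049434626, 4965049336836, 4964986523652, 4484013099012, 4948406444036, 4964991108098, 4964986913288, 4964990619656, 4483954771976, 4948348117000, 4552732705794, 4552669794312, 4484013228552, 4552732477448, 4536089714696, 4948944225282, 4948881313800, 4467907889160,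 4948407353864, 4948943216648, 4690138366466, 4690137878532, 4483979936772, 4690109007876, 4673495375876, 4552699023362, 4483979543072, 4552698922016, 4552669661216, 4536056029216, 4690112942082, 4483954508832, 4690108744224, 4690112710688, 4673469947936, 4674032766978, 4467874333728, 4674003404832, 4673495892512, 4674031755296, 4950084551170, 4950084063236, 4469048215556, 4948473938948, 4949954535428, 4537767432194, 4469047951904, 4537767200800, 4536156816416, 4537637412896, 4949010419714, 4467974080544, 4948473545248, 4949010318368, 4948880400416, 4949959249922, 4468922910752, 4948348634144, 4949955052064, 4949958238240]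
  | _ => []

lemma Lst_eq : ∀ k < 7, Lst k = (perms.filter (ends k)).map (fun l => maskL (arcsL l)) := by
  decide +kernel

lemma search_ok : ∀ k < 7, search ords (Lst k) = true := by
  decide +kernel

/-- Arcs of a circuit in `perms` are between distinct vertices. -/
lemma arcs_ne : ∀ l ∈ perms, ∀ p ∈ arcsL l, p.1 ≠ p.2 := by decide +kernel

lemma mem_pairs : ∀ u v : Fin 7, u ≠ 0 → v ≠ 0 → u < v → (u, v) ∈ pairs := by decide

lemma pairs_spec : ∀ p ∈ pairs, p.1 ≠ 0 ∧ p.2 ≠ 0 ∧ p.1 ≠ p.2 := by decide

lemma count_ne (T : Fin 7 → Fin 7 → Prop) [DecidableRel T] (hT : IsTournament T) (k : ℕ)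
    (hk : k ≤ 6) (h0 : ∀ j, T 0 j ↔ (1 ≤ j.val ∧ j.val ≤ k)) :
    (perms.filter (validB T)).length ≠ 23 := by
  let t : ℕ × ℕ → Bool := fun q => decide (T (Fin.ofNat 7 (q.1 / 7)) (Fin.ofNat 7 (q.1 % 7)))
  have ht : ∀ p : Fin 7 × Fin 7, t (code p, code p.swap) = decide (T p.1 p.2) := by
    intro p
    obtain ⟨i, j⟩ := p
    have e : ∀ i j : Fin 7, Fin.ofNat 7 (code (i, j) / 7) = i ∧
      Fin.ofNat 7 (code (i, j) % 7) = j := by decide
    simp only [t, (e i j).1, (e i j).2]
  have h1 := search_spec t ords (Lst k) (search_ok k (by omega))
  rw [Lst_eq k (by omega), List.filter_map, List.length_map, List.filter_filter] at h1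
  intro h2
  apply h1
  rw [← h2]
  congr 1
  apply List.filter_congr
  intro l hl
  rw [Bool.eq_iff_iff, Bool.and_eq_true]
  simp only [Function.comp, ok, ords_eq, List.all_map, List.all_eq_true, validB, ends,
    decide_eq_true_eq, Bool.and_eq_true, Bool.or_eq_true, bne_iff_ne, Bool.not_eq_true',
    Nat.ble_eq]
  constructor
  · rintro ⟨hA, hB⟩ p hp
    obtain ⟨u, v⟩ := p
    have hne : u ≠ v := arcs_ne l hl (u, v) hp
    have hBp := hB (u, v) hp
    simp only at hBp ⊢
    by_cases hu : u = 0
    · subst hu
      rw [h0]
      rcases hBp.1 with h | h
      · exact absurd rfl h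
      · exact h
    by_cases hv : v = 0
    · subst hv
      rw [hT.2 u 0 hne, h0]
      rcases hBp.2 with h | h
      · exact absurd rfl h
      · intro hcon
        have : (Nat.ble 1 u.val && Nat.ble u.val k) = true := by
          rw [Bool.and_eq_true, Nat.ble_eq, Nat.ble_eq]; exact hcon
        rw [this] at h
        exact absurd h (by decide)
    rcases lt_or_gt_of_ne hne with hlt | hgt
    · have h3 := hA (u, v) (mem_pairs u v hu hv hlt)
      by_contra hcon
      rw [ht, decide_eq_false hcon] at h3
      simp only [Bool.false_eq_true, if_false] at h3
      have h4 := (testBit_maskL (arcsL l) (u, v)).2 hp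
      rw [h4] at h3
      exact absurd h3 (by decide)
    · have h3 := hA (v, u) (mem_pairs v u hv hu hgt)
      rw [hT.2 u v hne]
      intro hcon
      rw [ht, decide_eq_true hcon] at h3
      simp only [if_true, Prod.swap_prod_mk] at h3
      have h4 := (testBit_maskL (arcsL l) (u, v)).2 hp
      rw [h4] at h3
      exact absurd h3 (by decide)
  · intro hV
    constructor
    · intro p hp
      obtain ⟨u, v⟩ := p
      obtain ⟨hu, hv, hne⟩ := pairs_spec (u, v) hp
      simp only at hu hv hne
      rw [ht]
      by_cases hTuv : T u v
      · rw [decide_eq_true hTuv, if_pos rfl, Prod.swap_prod_mk]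
        by_contra hcon
        have h4 : (maskL (arcsL l)).testBit (code (v, u)) = true := by
          simpa using hcon
        rw [testBit_maskL] at h4
        have h5 : T v u := hV (v, u) h4
        exact (hT.2 u v hne).1 hTuv h5
      · rw [decide_eq_false hTuv]
        simp only [Bool.false_eq_true, if_false]
        by_contra hcon
        have h4 : (maskL (arcsL l)).testBit (code (u, v)) = true := by
          simpa using hcon
        rw [testBit_maskL] at h4
        exact hTuv (hV (u, v) h4)
    · intro p hp
      obtain ⟨u, v⟩ := p
      have h5 : T u v := hV (u, v) hp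
      simp only
      constructor
      · by_cases hu : u = 0
        · right
          subst hu
          exact (h0 v).1 h5
        · left; exact hu
      · by_cases hv : v = 0
        · right
          subst hv
          by_contra hcon
          have h6 : (Nat.ble 1 u.val && Nat.ble u.val k) = true := by simpa using hcon
          rw [Bool.and_eq_true, Nat.ble_eq, Nat.ble_eq] at h6
          have h7 : T 0 u := (h0 u).2 h6
          have hne : u ≠ 0 := by
            intro h; subst h; exact hT.1 0 h7
          exact (hT.2 u 0 hne).1 h5 h7
        · left; exact hv

theorem not_23 : ¬ Realised 7 23 := by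
  classical
  rintro ⟨T, hT, h⟩
  obtain ⟨σ, k, hk, hσ, h0⟩ := exists_relabel T hT
  have hT' : IsTournament (fun i j => T (σ i) (σ j)) :=
    ⟨fun v => hT.1 _, fun u v huv => hT.2 _ _ (fun h => huv (σ.injective h))⟩
  rw [← numHam_relabel T σ, numHam_eq_S, ncard_S] at h
  refine count_ne (fun i j => T (σ i) (σ j)) hT' k hk ?_ h
  intro j
  rw [hσ]
  exact h0 j

/-- The quadratic residue tournament on 7 vertices. -/
def paley (i j : Fin 7) : Prop := j - i = 1 ∨ j - i = 2 ∨ j - i = 4

instance : DecidableRel paley := fun i j => by unfold paley; infer_instance

theorem real_24 : Realised 7 24 := by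
  refine ⟨paley, ⟨by decide, by decide⟩, ?_⟩
  rw [numHam_eq_S, ncard_S]
  decide +kernel

/-- There is no 7-tournament with exactly 23 Hamiltonian circuits, although there is one with 24;
so the statement that all values from `0` to `h_o(n)` are realised is false. -/
theorem result :
    (¬ Realised 7 23 ∧ Realised 7 24) ∧
      ¬ (∀ n : ℕ, 1 ≤ n → ∀ M : ℕ, IsMax n M → ∀ h : ℕ, h ≤ M → Realised n h) := by
  refine ⟨⟨not_23, real_24⟩, ?_⟩
  intro hyp
  have hbdd : BddAbove {h | Realised 7 h} := by
    classical
    refine ⟨perms.length, ?_⟩
    rintro h ⟨T, hT, rfl⟩
    rw [numHam_eq_S, ncard_S]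
    exact List.length_filter_le _ _
  have hne : {h | Realised 7 h}.Nonempty := ⟨24, real_24⟩
  have hmax : IsMax 7 (sSup {h | Realised 7 h}) :=
    ⟨Nat.sSup_mem hne hbdd, fun x hx => le_csSup hbdd hx⟩
  have h24 : 24 ≤ sSup {h | Realised 7 h} := le_csSup hbdd real_24
  exact not_23 (hyp 7 (by norm_num) _ hmax 23 (by omega))

end Pool.Agent.Results.MP_9038fc_co.NotAllRealised
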